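import Pool.Agent.BEK.Stmts

/-!
# Squad BEK, row PHK: the radial eigenfunction of the annulus
-/

set_option autoImplicit false

namespace Pool.Agent.BEK.H65

open Set Filter Topology MeasureTheory
open scoped InnerProductSpace ENNReal
open Pool.Agent.BE01 Pool.Agent.BED Pool.Agent.BEJ
open Pool.Agent.BEK
open Pool.Agent.BES (Lg)

theorem an_open (a b : ℝ) : IsOpen (An a b) :=
  (isOpen_lt continuous_const continuous_norm).inter (isOpen_lt continuous_norm continuous_const)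

/-- A linear isometry preserves the measure on an annulus. -/
theorem mp_iso (g : En 2 ≃ₗᵢ[ℝ] En 2) (a b : ℝ) :
    MeasurePreserving g (mu (An a b)) (mu (An a b)) := by
  have h1 : MeasurePreserving g (volume : Measure (En 2)) volume := g.measurePreserving
  have h2 := h1.restrict_preimage (an_open a b).measurableSet
  have h3 : g ⁻¹' (An a b) = An a b := by
    ext y
    show (a < ‖g y‖ ∧ ‖g y‖ < b) ↔ (a < ‖y‖ ∧ ‖y‖ < b)
    rw [g.norm_map]
  rw [h3] at h2
  exact h2

theorem gg_sq (c : ℂ) (s r : ℝ) (hr : 0 ≤ r) :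
    gg c s (r ^ 2) = ((starRingEnd ℂ) c * HH (s * r)).im := by
  unfold gg
  rw [Real.sqrt_sq hr]

/-- row PHK -/
theorem phk (rwk : RwkStmt) (rhk : RhkStmt) (hsk : HskStmt) : PhkStmt := by
  intro a b s ha hab hs hD
  obtain ⟨hsm, hode⟩ := hsk (HH (s * a)) s hs
  have hga : gg (HH (s * a)) s (a ^ 2) = 0 := by
    rw [gg_sq _ _ _ ha.le, ← Complex.normSq_eq_conj_mul_self]
    exact Complex.ofReal_im _
  have hgb : gg (HH (s * a)) s (b ^ 2) = 0 := by
    rw [gg_sq _ _ _ (ha.trans hab).le]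
    exact hD
  obtain ⟨f, G, hfG, hf, hG⟩ := rhk a b (gg (HH (s * a)) s) ha hab hsm hga hgb
  have hf' : f =ᵐ[mu (An a b)] fun y => ((starRingEnd ℂ) (HH (s * a)) * HH (s * ‖y‖)).im := by
    filter_upwards [hf] with y hy
    rw [hy]
    exact gg_sq _ _ _ (norm_nonneg y)
  refine ⟨f, hf', ?_, G, hfG, ?_⟩
  · intro g _
    have h4 := (mp_iso g a b).quasiMeasurePreserving.ae_eq_comp hf'
    refine (h4.trans ?_).trans hf'.symm
    refine Eventually.of_forall (fun y => ?_)
    show ((starRingEnd ℂ) (HH (s * a)) * HH (s * ‖g y‖)).im =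
      ((starRingEnd ℂ) (HH (s * a)) * HH (s * ‖y‖)).im
    rw [g.norm_map]
  · intro ψ hψ
    have h1 := rwk a b (gg (HH (s * a)) s) ψ ha hab hsm hψ
    have h2 : ∫ x, ⟪G x, gradient ψ x⟫_ℝ ∂(mu (An a b)) =
        ∫ x, ⟪gradient ψ x, gradient (fun y => gg (HH (s * a)) s (‖y‖ ^ 2)) x⟫_ℝ
          ∂(mu (An a b)) := by
      refine integral_congr_ae ?_
      filter_upwards [hG] with x hx
      rw [hx, real_inner_comm]
    rw [h2, h1, ← integral_neg, ← integral_const_mul]
    refine integral_congr_ae ?_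
    have hmem : ∀ᵐ x ∂(mu (An a b)), x ∈ An a b :=
      ae_restrict_mem (an_open a b).measurableSet
    filter_upwards [hf, hmem] with x hx hxm
    have hpos : 0 < ‖x‖ ^ 2 := by
      have h5 : a < ‖x‖ := hxm.1
      have h6 : 0 < ‖x‖ := ha.trans h5
      positivity
    have h3 := hode (‖x‖ ^ 2) hpos
    have h4 : Lg 0 0 (gg (HH (s * a)) s) (‖x‖ ^ 2) =
        -(s ^ 2 * gg (HH (s * a)) s (‖x‖ ^ 2)) := by
      unfold Lg at h3 ⊢
      linarith
    show -(ψ x * Lg 0 0 (gg (HH (s * a)) s) (‖x‖ ^ 2)) = s ^ 2 * (f x * ψ x)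
    rw [h4, hx]
    ring

end Pool.Agent.BEK.H65
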